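import Pool.Agent.Y578.GE.Main
import Pool.Agent.Y578.GE.Low

/-!
# Turán's problem for `K_m^3`, `m ≥ 5`, within the 3-graphs encoded by graphs

A 3-graph `H` is encoded by a graph `G` on the same vertices with the rule `S ⊆ {0,1,2,3}` if a
triple is an edge of `H` exactly when the number of edges of `G` inside it belongs to `S`. Turán's
construction for odd `m` is of this kind. For every `m ≥ 5` and every rule but `{0,1,2}` and its
complementary form `{1,2,3}` (and for these two as well if `m ≤ 6`) the density of a `K_m^3`-free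
3-graph encoded by a graph is shown to be at most `1 - 1/⌊(m-1)/2⌋² + o(1)`, which is the
conjectured value `1 - (2/(m-1))²` for odd `m` and smaller for even `m`; the bound is attained by
the rule `{2,3}`.
-/

set_option autoImplicit false
open Finset SimpleGraph
open scoped Classical

namespace Pool.Agent.Results.MP_a4d830_co.GraphEncodings

/-- The 3-graph `H` has no `m` vertices spanning all triples: it is `K_m^3`-free. -/
def KFree (m : ℕ) {n : ℕ} (H : Finset (Finset (Fin n))) : Prop :=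
  ∀ S : Finset (Fin n), S.card = m → ∃ T ⊆ S, T.card = 3 ∧ T ∉ H

/-- the number of edges of the graph `G` with both ends in `T` -/
noncomputable def edgesIn {n : ℕ} (G : SimpleGraph (Fin n)) (T : Finset (Fin n)) : ℕ :=
  {e : Sym2 (Fin n) | e ∈ G.edgeSet ∧ ∀ x ∈ e, x ∈ T}.ncard

/-- `H` is encoded by the graph `G` with the rule `S`: a triple belongs to `H` if and only if the
number of edges of `G` inside it belongs to `S`. -/
def EncodedBy (S : Set ℕ) {n : ℕ} (G : SimpleGraph (Fin n)) (H : Finset (Finset (Fin n))) : Prop :=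
  ∀ T : Finset (Fin n), T.card = 3 → (T ∈ H ↔ edgesIn G T ∈ S)

/-- 0 or 1 -/
noncomputable def b (p : Prop) : ℕ := if p then 1 else 0

theorem b_true {p : Prop} (h : p) : b p = 1 := if_pos h
theorem b_false {p : Prop} (h : ¬ p) : b p = 0 := if_neg h
theorem b_le (p : Prop) : b p ≤ 1 := by unfold b; split_ifs <;> norm_num
theorem b_eq_one {p : Prop} : b p = 1 ↔ p := by
  unfold b; split_ifs with h <;> simp [h]
theorem b_eq_zero {p : Prop} : b p = 0 ↔ ¬ p := by
  unfold b; split_ifs with h <;> simp [h]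

theorem edgesIn_eq {n : ℕ} (G : SimpleGraph (Fin n)) {x y z : Fin n} (hxy : x ≠ y) (hxz : x ≠ z)
    (hyz : y ≠ z) :
    edgesIn G {x, y, z} = b (G.Adj x y) + b (G.Adj x z) + b (G.Adj y z) := by
  have n1 : s(x, y) ≠ s(x, z) := by
    rw [Ne, Sym2.eq_iff]; rintro (⟨-, h⟩ | ⟨h, -⟩)
    · exact hyz h
    · exact hxz h
  have n2 : s(x, y) ≠ s(y, z) := by
    rw [Ne, Sym2.eq_iff]; rintro (⟨h, -⟩ | ⟨h, -⟩)
    · exact hxy h
    · exact hxz h
  have n3 : s(x, z) ≠ s(y, z) := by
    rw [Ne, Sym2.eq_iff]; rintro (⟨h, -⟩ | ⟨h, -⟩)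
    · exact hxy h
    · exact hxz h
  have hset : {e : Sym2 (Fin n) | e ∈ G.edgeSet ∧ ∀ w ∈ e, w ∈ ({x, y, z} : Finset (Fin n))} =
      (((({s(x, y), s(x, z), s(y, z)} : Finset (Sym2 (Fin n))).filter
        (fun e => e ∈ G.edgeSet) : Finset (Sym2 (Fin n))) : Set (Sym2 (Fin n)))) := by
    ext e
    induction e using Sym2.ind with
    | _ u v =>
      simp only [Set.mem_ofPred_eq, coe_filter, mem_insert, mem_singleton]
      constructor
      · rintro ⟨h1, h2⟩
        refine ⟨?_, h1⟩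
        have huv : u ≠ v := by
          rw [SimpleGraph.mem_edgeSet] at h1
          exact h1.ne
        have hu := h2 u (Sym2.mem_mk_left u v)
        have hv := h2 v (Sym2.mem_mk_right u v)
        rcases hu with rfl | rfl | rfl <;> rcases hv with rfl | rfl | rfl
        · exact absurd rfl huv
        · exact Or.inl rfl
        · exact Or.inr (Or.inl rfl)
        · exact Or.inl Sym2.eq_swap
        · exact absurd rfl huv
        · exact Or.inr (Or.inr rfl)
        · exact Or.inr (Or.inl Sym2.eq_swap)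
        · exact Or.inr (Or.inr Sym2.eq_swap)
        · exact absurd rfl huv
      · rintro ⟨h1, h2⟩
        refine ⟨h2, ?_⟩
        intro w hw
        rcases h1 with h1 | h1 | h1 <;> rw [h1, Sym2.mem_iff] at hw <;> tauto
  unfold edgesIn
  rw [hset, Set.ncard_coe_finset, card_filter, sum_insert, sum_insert, sum_singleton]
  · unfold b
    simp only [SimpleGraph.mem_edgeSet]
    ring
  · rw [mem_singleton]; exact n3
  · rw [mem_insert, mem_singleton, not_or]; exact ⟨n1, n2⟩

theorem enc {S : Set ℕ} {n : ℕ} {G : SimpleGraph (Fin n)} {H : Finset (Finset (Fin n))}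
    (hE : EncodedBy S G H) {x y z : Fin n} (hxy : x ≠ y) (hxz : x ≠ z) (hyz : y ≠ z) :
    ({x, y, z} : Finset (Fin n)) ∈ H ↔ b (G.Adj x y) + b (G.Adj x z) + b (G.Adj y z) ∈ S := by
  rw [hE _ (Finset.card_eq_three.mpr ⟨x, y, z, hxy, hxz, hyz, rfl⟩), edgesIn_eq G hxy hxz hyz]

theorem b_adj_comm {n : ℕ} (G : SimpleGraph (Fin n)) (x y : Fin n) :
    b (G.Adj x y) = b (G.Adj y x) := by rw [G.adj_comm]

open Pool.Agent.Y578.GE in
/-- closed rules -/
theorem closed {m n : ℕ} (hm : 4 ≤ m) {S : Set ℕ} {G : SimpleGraph (Fin n)}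
    {H : Finset (Finset (Fin n))} (h3 : ∀ e ∈ H, e.card = 3) (hK : KFree m H)
    (hE : EncodedBy S G H)
    (hS : ∀ a b' c p q r : ℕ, a ≤ 1 → b' ≤ 1 → c ≤ 1 → p ≤ 1 → q ≤ 1 → r ≤ 1 →
      a + b' + p ∈ S → a + c + q ∈ S → b' + c + r ∈ S → p + q + r ∈ S) :
    ((m : ℝ) - 2) * (6 * (H.card : ℝ)) ≤ ((m : ℝ) - 3) * (n : ℝ) ^ 3 := by
  refine closed_case hm H h3 hK ?_
  intro v x y z hxy hxz hyz h1 h2 h4
  obtain ⟨a1, a2, -⟩ := ne_of_mem h3 h1
  obtain ⟨-, a3, -⟩ := ne_of_mem h3 h2
  rw [enc hE a1 a2 hxy] at h1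
  rw [enc hE a1 a3 hxz] at h2
  rw [enc hE a2 a3 hyz] at h4
  rw [enc hE hxy hxz hyz]
  exact hS _ _ _ _ _ _ (b_le _) (b_le _) (b_le _) (b_le _) (b_le _) (b_le _) h1 h2 h4

open Pool.Agent.Y578.GE in
theorem ramsey_case {m n : ℕ} (hn : 2 ^ (m + m) ≤ n) {S : Set ℕ} {G : SimpleGraph (Fin n)}
    {H : Finset (Finset (Fin n))} (hK : KFree m H) (hE : EncodedBy S G H)
    (h0 : 0 ∈ S) (h3 : 3 ∈ S) : False := by
  have hr := Pool.Agent.H265R2.CritP4.ramsey G (m + m) m m le_rfl univ
    (by rw [card_univ, Fintype.card_fin]; exact hn)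
  rcases hr with ⟨U, -, hUm, hU⟩ | ⟨U, -, hUm, hU⟩
  · obtain ⟨T, hT, hT3, hTH⟩ := hK U hUm
    obtain ⟨x, y, z, hxy, hxz, hyz, rfl⟩ := Finset.card_eq_three.mp hT3
    apply hTH
    have hx : x ∈ U := hT (by simp)
    have hy : y ∈ U := hT (by simp)
    have hz : z ∈ U := hT (by simp)
    rw [enc hE hxy hxz hyz, b_true (hU x hx y hy hxy), b_true (hU x hx z hz hxz),
      b_true (hU y hy z hz hyz)]
    exact h3
  · obtain ⟨T, hT, hT3, hTH⟩ := hK U hUm
    obtain ⟨x, y, z, hxy, hxz, hyz, rfl⟩ := Finset.card_eq_three.mp hT3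
    apply hTH
    have hx : x ∈ U := hT (by simp)
    have hy : y ∈ U := hT (by simp)
    have hz : z ∈ U := hT (by simp)
    rw [enc hE hxy hxz hyz, b_false (hU x hx y hy), b_false (hU x hx z hz),
      b_false (hU y hy z hz)]
    exact h0

open Pool.Agent.Y578.GE in
/-- the upper bound with `n³` -/
theorem upper3 {m : ℕ} (hm : 5 ≤ m) {S : Set ℕ} (hS : m ≤ 6 ∨ ¬ (1 ∈ S ∧ 2 ∈ S ∧ ¬ (0 ∈ S ↔ 3 ∈ S)))
    {ε : ℝ} (hε : 0 < ε) :
    ∃ N : ℕ, ∀ n : ℕ, N ≤ n → ∀ (G : SimpleGraph (Fin n)) (H : Finset (Finset (Fin n))),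
      (∀ e ∈ H, e.card = 3) → KFree m H → EncodedBy S G H →
      6 * (H.card : ℝ) ≤ (1 - 1 / (((m - 1) / 2 : ℕ) : ℝ) ^ 2 + ε) * (n : ℝ) ^ 3 := by
  set s : ℕ := (m - 1) / 2 with hs
  have hs2 : 2 ≤ s := by omega
  have hms : m ≤ 2 * (s + 1) := by omega
  have hsr : (2 : ℝ) ≤ s := by exact_mod_cast hs2
  obtain ⟨N0, hN0⟩ := es_case (m := m) (s := s) (by omega) hms hε
  obtain ⟨N1, hN1⟩ := exists_nat_gt (3 / ε ^ 8)
  refine ⟨max N0 (max N1 (2 ^ (m + m))), fun n hn G H h3 hK hE => ?_⟩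
  have hn0 : N0 ≤ n := le_trans (le_max_left _ _) hn
  have hn1 : N1 ≤ n := le_trans (le_trans (le_max_left _ _) (le_max_right _ _)) hn
  have hn2 : 2 ^ (m + m) ≤ n := le_trans (le_trans (le_max_right _ _) (le_max_right _ _)) hn
  have hn1' : 3 / ε ^ 8 < (n : ℝ) := lt_of_lt_of_le hN1 (by exact_mod_cast hn1)
  have hn3 : (0 : ℝ) ≤ (n : ℝ) ^ 3 := by positivity
  have hq : 1 / (s : ℝ) ^ 2 ≤ 1 / 4 := by
    apply one_div_le_one_div_of_le (by norm_num)
    nlinarith
  -- bound by 3/4
  have fin34 : 6 * (H.card : ℝ) ≤ (3 / 4 + ε) * (n : ℝ) ^ 3 →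
      6 * (H.card : ℝ) ≤ (1 - 1 / (s : ℝ) ^ 2 + ε) * (n : ℝ) ^ 3 := by
    intro h
    refine h.trans (mul_le_mul_of_nonneg_right ?_ hn3)
    linarith
  -- bound for the closed rules
  have finC : ((m : ℝ) - 2) * (6 * (H.card : ℝ)) ≤ ((m : ℝ) - 3) * (n : ℝ) ^ 3 →
      6 * (H.card : ℝ) ≤ (1 - 1 / (s : ℝ) ^ 2 + ε) * (n : ℝ) ^ 3 := by
    intro h
    have hm2 : (0 : ℝ) < (m : ℝ) - 2 := by
      have : (5 : ℝ) ≤ m := by exact_mod_cast hm
      linarith
    have hk : (m : ℝ) - 2 ≤ (s : ℝ) ^ 2 := by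
      have h1 : (m : ℝ) ≤ 2 * ((s : ℝ) + 1) := by exact_mod_cast hms
      nlinarith
    have hk2 : 1 / (s : ℝ) ^ 2 ≤ 1 / ((m : ℝ) - 2) := one_div_le_one_div_of_le hm2 hk
    have h1 : ((m : ℝ) - 3) = ((m : ℝ) - 2) * (1 - 1 / ((m : ℝ) - 2)) := by
      field_simp
      ring
    rw [h1, mul_assoc] at h
    have h2 := le_of_mul_le_mul_left h hm2
    refine h2.trans (mul_le_mul_of_nonneg_right ?_ hn3)
    linarith
  have c1 : ∀ k : ℕ, k ≤ 3 → k = 0 ∨ k = 1 ∨ k = 2 ∨ k = 3 := by intro k hk; omega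
  by_cases a0 : 0 ∈ S <;> by_cases a3 : 3 ∈ S
  · exact (ramsey_case hn2 hK hE a0 a3).elim
  · by_cases a1 : 1 ∈ S <;> by_cases a2 : 2 ∈ S
    · -- {0,1,2}
      have hm6 : m ≤ 6 := by
        rcases hS with h | h
        · exact h
        · exact absurd ⟨a1, a2, fun h' => a3 (h'.1 a0)⟩ h
      apply fin34
      refine exc_case hm6 hε hn1' G H h3 hK ?_
      intro x y z hxy hxz hyz
      rw [enc hE hxy hxz hyz]
      have e1 := b_le (G.Adj x y)
      have e2 := b_le (G.Adj x z)
      have e3 := b_le (G.Adj y z)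
      constructor
      · rintro h ⟨g1, g2, g3⟩
        rw [b_true g1, b_true g2, b_true g3] at h
        exact a3 h
      · intro h
        have hne : b (G.Adj x y) + b (G.Adj x z) + b (G.Adj y z) ≠ 3 := by
          intro h'
          exact h ⟨b_eq_one.1 (by omega), b_eq_one.1 (by omega), b_eq_one.1 (by omega)⟩
        rcases c1 (b (G.Adj x y) + b (G.Adj x z) + b (G.Adj y z)) (by omega) with h' | h' | h' | h'
        · rw [h']; exact a0
        · rw [h']; exact a1
        · rw [h']; exact a2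
        · exact absurd h' hne
    · -- {0,1}
      refine hN0 n hn0 G H h3 hK ?_
      intro x y z hxy hxz hyz
      rw [enc hE hxy hxz hyz]
      have e1 := b_le (G.Adj x y)
      have e2 := b_le (G.Adj x z)
      have e3 := b_le (G.Adj y z)
      constructor
      · intro h
        refine ⟨?_, ?_, ?_⟩ <;> rintro ⟨g1, g2⟩
        · rw [b_true g1, b_true g2] at h
          rcases c1 (b (G.Adj y z)) (by omega) with h' | h' | h' | h'
          · rw [h'] at h; exact a2 h
          · rw [h'] at h; exact a3 h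
          · omega
          · omega
        · rw [b_true g1, b_true g2] at h
          rcases c1 (b (G.Adj x z)) (by omega) with h' | h' | h' | h'
          · rw [h'] at h; exact a2 h
          · rw [h'] at h; exact a3 h
          · omega
          · omega
        · rw [b_true g1, b_true g2] at h
          rcases c1 (b (G.Adj x y)) (by omega) with h' | h' | h' | h'
          · rw [h'] at h; exact a2 h
          · rw [h'] at h; exact a3 h
          · omega
          · omega
      · rintro ⟨g1, g2, g3⟩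
        have hle : b (G.Adj x y) + b (G.Adj x z) + b (G.Adj y z) ≤ 1 := by
          by_contra hc
          by_cases k1 : b (G.Adj x y) = 1
          · by_cases k2 : b (G.Adj x z) = 1
            · exact g1 ⟨b_eq_one.1 k1, b_eq_one.1 k2⟩
            · exact g2 ⟨b_eq_one.1 k1, b_eq_one.1 (by omega)⟩
          · exact g3 ⟨b_eq_one.1 (by omega), b_eq_one.1 (by omega)⟩
        rcases c1 (b (G.Adj x y) + b (G.Adj x z) + b (G.Adj y z)) (by omega) with h' | h' | h' | h'
        · rw [h']; exact a0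
        · rw [h']; exact a1
        · omega
        · omega
    · -- {0,2}
      apply finC
      refine closed (by omega) h3 hK hE ?_
      intro a b' c p q r ha hb hc hp hq hr k1 k2 k3
      have par : ∀ k : ℕ, k ≤ 3 → (k ∈ S ↔ k % 2 = 0) := by
        intro k hk
        rcases c1 k hk with rfl | rfl | rfl | rfl
        · exact ⟨fun _ => rfl, fun _ => a0⟩
        · exact ⟨fun h => absurd h a1, fun h => absurd h (by norm_num)⟩
        · exact ⟨fun _ => rfl, fun _ => a2⟩
        · exact ⟨fun h => absurd h a3, fun h => absurd h (by norm_num)⟩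
      rw [par _ (by omega)] at k1 k2 k3
      rw [par _ (by omega)]
      omega
    · -- {0}
      apply finC
      refine closed (by omega) h3 hK hE ?_
      intro a b' c p q r ha hb hc hp hq hr k1 k2 k3
      have par : ∀ k : ℕ, k ≤ 3 → (k ∈ S ↔ k = 0) := by
        intro k hk
        rcases c1 k hk with rfl | rfl | rfl | rfl
        · exact ⟨fun _ => rfl, fun _ => a0⟩
        · exact ⟨fun h => absurd h a1, fun h => absurd h (by norm_num)⟩
        · exact ⟨fun h => absurd h a2, fun h => absurd h (by norm_num)⟩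
        · exact ⟨fun h => absurd h a3, fun h => absurd h (by norm_num)⟩
      rw [par _ (by omega)] at k1 k2 k3
      rw [par _ (by omega)]
      omega
  · by_cases a1 : 1 ∈ S <;> by_cases a2 : 2 ∈ S
    · -- {1,2,3}
      have hm6 : m ≤ 6 := by
        rcases hS with h | h
        · exact h
        · exact absurd ⟨a1, a2, fun h' => a0 (h'.2 a3)⟩ h
      apply fin34
      refine exc_case hm6 hε hn1' Gᶜ H h3 hK ?_
      intro x y z hxy hxz hyz
      rw [enc hE hxy hxz hyz]
      simp only [compl_adj]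
      have e1 := b_le (G.Adj x y)
      have e2 := b_le (G.Adj x z)
      have e3 := b_le (G.Adj y z)
      constructor
      · rintro h ⟨g1, g2, g3⟩
        rw [b_false g1.2, b_false g2.2, b_false g3.2] at h
        exact a0 h
      · intro h
        have hne : b (G.Adj x y) + b (G.Adj x z) + b (G.Adj y z) ≠ 0 := by
          intro h'
          exact h ⟨⟨hxy, b_eq_zero.1 (by omega)⟩, ⟨hxz, b_eq_zero.1 (by omega)⟩,
            ⟨hyz, b_eq_zero.1 (by omega)⟩⟩
        rcases c1 (b (G.Adj x y) + b (G.Adj x z) + b (G.Adj y z)) (by omega) with h' | h' | h' | h'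
        · exact absurd h' hne
        · rw [h']; exact a1
        · rw [h']; exact a2
        · rw [h']; exact a3
    · -- {1,3}
      apply finC
      refine closed (by omega) h3 hK hE ?_
      intro a b' c p q r ha hb hc hp hq hr k1 k2 k3
      have par : ∀ k : ℕ, k ≤ 3 → (k ∈ S ↔ k % 2 = 1) := by
        intro k hk
        rcases c1 k hk with rfl | rfl | rfl | rfl
        · exact ⟨fun h => absurd h a0, fun h => absurd h (by norm_num)⟩
        · exact ⟨fun _ => rfl, fun _ => a1⟩
        · exact ⟨fun h => absurd h a2, fun h => absurd h (by norm_num)⟩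
        · exact ⟨fun _ => rfl, fun _ => a3⟩
      rw [par _ (by omega)] at k1 k2 k3
      rw [par _ (by omega)]
      omega
    · -- {2,3}
      refine hN0 n hn0 Gᶜ H h3 hK ?_
      intro x y z hxy hxz hyz
      rw [enc hE hxy hxz hyz]
      unfold AMO
      simp only [compl_adj]
      have e1 := b_le (G.Adj x y)
      have e2 := b_le (G.Adj x z)
      have e3 := b_le (G.Adj y z)
      constructor
      · intro h
        refine ⟨?_, ?_, ?_⟩ <;> rintro ⟨⟨-, g1⟩, ⟨-, g2⟩⟩
        · rw [b_false g1, b_false g2] at h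
          rcases c1 (b (G.Adj y z)) (by omega) with h' | h' | h' | h'
          · rw [h'] at h; exact a0 h
          · rw [h'] at h; exact a1 h
          · omega
          · omega
        · rw [b_false g1, b_false g2] at h
          rcases c1 (b (G.Adj x z)) (by omega) with h' | h' | h' | h'
          · rw [h'] at h; exact a0 h
          · rw [h'] at h; exact a1 h
          · omega
          · omega
        · rw [b_false g1, b_false g2] at h
          rcases c1 (b (G.Adj x y)) (by omega) with h' | h' | h' | h'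
          · rw [h'] at h; exact a0 h
          · rw [h'] at h; exact a1 h
          · omega
          · omega
      · rintro ⟨g1, g2, g3⟩
        have hle : 2 ≤ b (G.Adj x y) + b (G.Adj x z) + b (G.Adj y z) := by
          by_contra hc
          by_cases k1 : b (G.Adj x y) = 0
          · by_cases k2 : b (G.Adj x z) = 0
            · exact g1 ⟨⟨hxy, b_eq_zero.1 k1⟩, ⟨hxz, b_eq_zero.1 k2⟩⟩
            · exact g2 ⟨⟨hxy, b_eq_zero.1 k1⟩, ⟨hyz, b_eq_zero.1 (by omega)⟩⟩
          · exact g3 ⟨⟨hxz, b_eq_zero.1 (by omega)⟩, ⟨hyz, b_eq_zero.1 (by omega)⟩⟩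
        rcases c1 (b (G.Adj x y) + b (G.Adj x z) + b (G.Adj y z)) (by omega) with h' | h' | h' | h'
        · omega
        · omega
        · rw [h']; exact a2
        · rw [h']; exact a3
    · -- {3}
      apply finC
      refine closed (by omega) h3 hK hE ?_
      intro a b' c p q r ha hb hc hp hq hr k1 k2 k3
      have par : ∀ k : ℕ, k ≤ 3 → (k ∈ S ↔ k = 3) := by
        intro k hk
        rcases c1 k hk with rfl | rfl | rfl | rfl
        · exact ⟨fun h => absurd h a0, fun h => absurd h (by norm_num)⟩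
        · exact ⟨fun h => absurd h a1, fun h => absurd h (by norm_num)⟩
        · exact ⟨fun h => absurd h a2, fun h => absurd h (by norm_num)⟩
        · exact ⟨fun _ => rfl, fun _ => a3⟩
      rw [par _ (by omega)] at k1 k2 k3
      rw [par _ (by omega)]
      omega
  · -- neither 0 nor 3
    apply fin34
    have h := nonmono_case G H h3 (by
      intro x y z hxy hxz hyz h
      rw [enc hE hxy hxz hyz] at h
      constructor
      · rintro ⟨g1, g2, g3⟩
        rw [b_true g1, b_true g2, b_true g3] at h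
        exact a3 h
      · rintro ⟨g1, g2, g3⟩
        rw [b_false g1, b_false g2, b_false g3] at h
        exact a0 h)
    have : 0 ≤ ε * (n : ℝ) ^ 3 := by positivity
    linarith

theorem choose_three {n : ℕ} (hn : 2 ≤ n) :
    ((n.choose 3 : ℕ) : ℝ) = (n : ℝ) * (n - 1) * (n - 2) / 6 := by
  have h1 : n.choose 3 * 6 = n * (n - 1) * (n - 2) := by
    have := Nat.descFactorial_eq_factorial_mul_choose n 3
    have h2 : n.descFactorial 3 = (n - 2) * ((n - 1) * n) := by
      simp [Nat.descFactorial]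
    rw [h2] at this
    have h3 : Nat.factorial 3 = 6 := rfl
    rw [h3] at this
    linarith
  have h4 : ((n.choose 3 * 6 : ℕ) : ℝ) = ((n * (n - 1) * (n - 2) : ℕ) : ℝ) := by rw [h1]
  push_cast [Nat.cast_sub (show 1 ≤ n by omega), Nat.cast_sub (show 2 ≤ n by omega)] at h4
  linarith

/-- **Turán's problem for 3-graphs encoded by graphs.** Let `m ≥ 5` and let the rule `S` be given;
if `m ≥ 7`, suppose that it is not `{0,1,2}` or `{1,2,3}` (numbers above 3 do not matter).

(1) For every `ε > 0` and all sufficiently large `n`, a `K_m^3`-free 3-graph on `n` vertices encoded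
by a graph with the rule `S` has density at most `1 - 1/⌊(m-1)/2⌋² + ε`.

(2) This bound is at most the value `1 - (2/(m-1))²` of Turán's conjecture, with equality for odd
`m`.

(3) The bound is attained: for every `ε > 0` and all large `n` there is a `K_m^3`-free 3-graph on
`n` vertices encoded by a graph with the rule `{2,3}`, of density at least
`1 - 1/⌊(m-1)/2⌋² - ε`. -/
theorem result (m : ℕ) (hm : 5 ≤ m) :
    (∀ S : Set ℕ, (m ≤ 6 ∨ ¬ (1 ∈ S ∧ 2 ∈ S ∧ ¬ (0 ∈ S ↔ 3 ∈ S))) → ∀ ε : ℝ, 0 < ε →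
      ∃ N : ℕ, ∀ n : ℕ, N ≤ n → ∀ (G : SimpleGraph (Fin n)) (H : Finset (Finset (Fin n))),
        (∀ e ∈ H, e.card = 3) → KFree m H → EncodedBy S G H →
        (H.card : ℝ) ≤ (1 - 1 / (((m - 1) / 2 : ℕ) : ℝ) ^ 2 + ε) * (n.choose 3 : ℝ)) ∧
    (1 - 1 / (((m - 1) / 2 : ℕ) : ℝ) ^ 2 ≤ 1 - (2 / ((m : ℝ) - 1)) ^ 2 ∧
      (Odd m → 1 - 1 / (((m - 1) / 2 : ℕ) : ℝ) ^ 2 = 1 - (2 / ((m : ℝ) - 1)) ^ 2)) ∧
    (∀ ε : ℝ, 0 < ε → ∃ N : ℕ, ∀ n : ℕ, N ≤ n →
      ∃ (G : SimpleGraph (Fin n)) (H : Finset (Finset (Fin n))),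
        (∀ e ∈ H, e.card = 3) ∧ KFree m H ∧ EncodedBy {2, 3} G H ∧
        (1 - 1 / (((m - 1) / 2 : ℕ) : ℝ) ^ 2 - ε) * (n.choose 3 : ℝ) ≤ (H.card : ℝ)) := by
  set s : ℕ := (m - 1) / 2 with hs
  have hs2 : 2 ≤ s := by omega
  have hsr : (2 : ℝ) ≤ s := by exact_mod_cast hs2
  have hm1 : (0 : ℝ) < (m : ℝ) - 1 := by
    have : (5 : ℝ) ≤ m := by exact_mod_cast hm
    linarith
  have hq0 : 0 ≤ 1 / (s : ℝ) ^ 2 := by positivity
  refine ⟨?_, ⟨?_, ?_⟩, ?_⟩
  · intro S hS ε hε
    obtain ⟨N, hN⟩ := upper3 hm hS (half_pos hε)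
    obtain ⟨N1, hN1⟩ := exists_nat_gt (6 * (1 + ε) / ε)
    refine ⟨max N (max N1 2), fun n hn G H h3 hK hE => ?_⟩
    have h := hN n (le_trans (le_max_left _ _) hn) G H h3 hK hE
    rw [← hs] at h
    have hn2 : 2 ≤ n := le_trans (le_trans (le_max_right _ _) (le_max_right _ _)) hn
    have hn1 : 6 * (1 + ε) / ε < (n : ℝ) := lt_of_lt_of_le hN1
      (by exact_mod_cast le_trans (le_trans (le_max_left _ _) (le_max_right _ _)) hn)
    rw [div_lt_iff₀ hε] at hn1
    rw [choose_three hn2]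
    set κ : ℝ := 1 - 1 / (s : ℝ) ^ 2 with hκ
    have hκ1 : κ ≤ 1 := by rw [hκ]; linarith
    have hκ0 : 0 ≤ κ := by
      have : 1 / (s : ℝ) ^ 2 ≤ 1 := by
        rw [div_le_one (by positivity)]
        nlinarith
      rw [hκ]; linarith
    have hn0 : (0 : ℝ) ≤ n := Nat.cast_nonneg n
    have e1 : (n : ℝ) ^ 3 - 3 * (n : ℝ) ^ 2 ≤ (n : ℝ) * (n - 1) * (n - 2) := by nlinarith
    have e2 : (κ + ε) * ((n : ℝ) ^ 3 - 3 * (n : ℝ) ^ 2) ≤
        (κ + ε) * ((n : ℝ) * (n - 1) * (n - 2)) :=
      mul_le_mul_of_nonneg_left e1 (by linarith)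
    have e3 : 0 ≤ (n : ℝ) ^ 2 * (ε / 2 * n - 3 * (κ + ε)) :=
      mul_nonneg (by positivity) (by nlinarith)
    have e4 : (n : ℝ) ^ 2 * (ε / 2 * n - 3 * (κ + ε)) =
        (κ + ε) * ((n : ℝ) ^ 3 - 3 * (n : ℝ) ^ 2) - (κ + ε / 2) * (n : ℝ) ^ 3 := by ring
    linarith
  · have h1 : (s : ℝ) ≤ ((m : ℝ) - 1) / 2 := by
      have h2 : 2 * s ≤ m - 1 := by omega
      have h3 : ((2 * s : ℕ) : ℝ) ≤ ((m - 1 : ℕ) : ℝ) := by exact_mod_cast h2
      push_cast [Nat.cast_sub (show 1 ≤ m by omega)] at h3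
      linarith
    have h4 : (2 / ((m : ℝ) - 1)) ^ 2 ≤ 1 / (s : ℝ) ^ 2 := by
      have h5 : 2 / ((m : ℝ) - 1) ≤ 1 / (s : ℝ) := by
        rw [div_le_div_iff₀ hm1 (by linarith)]
        linarith
      have h6 : (2 / ((m : ℝ) - 1)) ^ 2 ≤ (1 / (s : ℝ)) ^ 2 :=
        pow_le_pow_left₀ (by positivity) h5 2
      rw [one_div_pow] at h6
      exact h6
    linarith
  · rintro ⟨k, hk⟩
    have h1 : s = k := by omega
    have h2 : (m : ℝ) - 1 = 2 * (s : ℝ) := by
      rw [h1, hk]; push_cast; ring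
    rw [h2]
    have : (s : ℝ) ≠ 0 := by linarith
    field_simp
  · intro ε hε
    obtain ⟨N, hN⟩ := Pool.Agent.Y578.GE.multiH_large (s := s) (by omega) hε
    refine ⟨N, fun n hn => ⟨Pool.Agent.Y578.GE.multi s n, Pool.Agent.Y578.GE.multiH s n,
      Pool.Agent.Y578.GE.multiH_three,
      Pool.Agent.Y578.GE.multiH_free (by omega) (by omega), ?_, hN n hn⟩⟩
    intro T hT3
    obtain ⟨x, y, z, hxy, hxz, hyz, rfl⟩ := Finset.card_eq_three.mp hT3
    rw [edgesIn_eq _ hxy hxz hyz]
    have e1 : (Pool.Agent.Y578.GE.multi s n).Adj x y ↔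
        Pool.Agent.Y578.GE.part s x ≠ Pool.Agent.Y578.GE.part s y := Iff.rfl
    have e2 : (Pool.Agent.Y578.GE.multi s n).Adj x z ↔
        Pool.Agent.Y578.GE.part s x ≠ Pool.Agent.Y578.GE.part s z := Iff.rfl
    have e3 : (Pool.Agent.Y578.GE.multi s n).Adj y z ↔
        Pool.Agent.Y578.GE.part s y ≠ Pool.Agent.Y578.GE.part s z := Iff.rfl
    rw [e1, e2, e3]
    unfold Pool.Agent.Y578.GE.multiH
    rw [mem_filter, mem_powersetCard]
    simp only [Set.mem_insert_iff, Set.mem_singleton_iff]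
    by_cases k1 : Pool.Agent.Y578.GE.part s x = Pool.Agent.Y578.GE.part s y
    · by_cases k2 : Pool.Agent.Y578.GE.part s x = Pool.Agent.Y578.GE.part s z
      · have k3 : Pool.Agent.Y578.GE.part s y = Pool.Agent.Y578.GE.part s z := k1.symm.trans k2
        rw [b_false (not_not.2 k1), b_false (not_not.2 k2), b_false (not_not.2 k3)]
        constructor
        · rintro ⟨-, u, hu, v, hv, huv⟩
          exfalso
          apply huv
          have hall : ∀ w ∈ ({x, y, z} : Finset (Fin n)),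
              Pool.Agent.Y578.GE.part s w = Pool.Agent.Y578.GE.part s x := by
            intro w hw
            simp only [mem_insert, mem_singleton] at hw
            rcases hw with rfl | rfl | rfl
            · rfl
            · exact k1.symm
            · exact k2.symm
          rw [hall u hu, hall v hv]
        · intro h
          omega
      · have k3 : Pool.Agent.Y578.GE.part s y ≠ Pool.Agent.Y578.GE.part s z :=
          fun h => k2 (k1.trans h)
        rw [b_false (not_not.2 k1), b_true k2, b_true k3]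
        refine ⟨fun _ => Or.inl rfl, fun _ => ⟨⟨subset_univ _, hT3⟩, x, by simp, z, by simp, k2⟩⟩
    · have hmem : (({x, y, z} : Finset (Fin n)) ⊆ univ ∧ ({x, y, z} : Finset (Fin n)).card = 3) ∧
          ∃ u ∈ ({x, y, z} : Finset (Fin n)), ∃ v ∈ ({x, y, z} : Finset (Fin n)),
            Pool.Agent.Y578.GE.part s u ≠ Pool.Agent.Y578.GE.part s v :=
        ⟨⟨subset_univ _, hT3⟩, x, by simp, y, by simp, k1⟩
      refine ⟨fun _ => ?_, fun _ => hmem⟩
      rw [b_true k1]
      by_cases k2 : Pool.Agent.Y578.GE.part s x = Pool.Agent.Y578.GE.part s z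
      · have k3 : Pool.Agent.Y578.GE.part s y ≠ Pool.Agent.Y578.GE.part s z :=
          fun h => k1 (k2.trans h.symm)
        rw [b_false (not_not.2 k2), b_true k3]
        left; rfl
      · rw [b_true k2]
        by_cases k3 : Pool.Agent.Y578.GE.part s y = Pool.Agent.Y578.GE.part s z
        · rw [b_false (not_not.2 k3)]
          left; rfl
        · rw [b_true k3]
          right; rfl

end Pool.Agent.Results.MP_a4d830_co.GraphEncodings
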